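import Pool.Agent.Y162.HW.Main

/-!
# Hypersurfaces that degenerate to a general arrangement of hyperplanes

Let `k` be a field of characteristic `0` and `X ⊂ P^n` the hypersurface `F = 0` of degree
`d = m + n + 1` over `k`.  Suppose that some specialisation of the coefficients of `F` in a field
`κ` of characteristic `0` turns `F` into a product of `d` linear forms in general position.  Then
for every model of `X` over a finitely generated subring `A ⊂ k`, every nonempty open set `D(a)`
of `Spec A` and every sufficiently large prime number `p` there is a closed point of `D(a)` of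
characteristic `p` at which Frobenius is bijective on `H^(n-1)(X_s, O)`.
-/

namespace Pool.Agent.Results.MP_adc574_ag.ArrangementDegenerations

open MvPolynomial Pool.Agent.Y162.HW

theorem result {k κ : Type*} [Field k] [CharZero k] [Field κ] [CharZero κ] (n m : ℕ)
    (F : MvPolynomial (Fin (n + 1)) k)
    -- a specialisation of the coefficients of `F`
    (O : Subring k) (φ : O →+* κ)
    (F' : MvPolynomial (Fin (n + 1)) O) (hF' : map O.subtype F' = F)
    -- the specialised form is a product of linear forms in general position
    (l : Fin (m + n + 1) → Fin (n + 1) → κ) (hl : GenPos l)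
    (hred : map φ F' = ∏ i, lin (l i))
    -- a model over a finitely generated ring, a nonempty open set
    (A : Subalgebra ℤ k) (hA : A.FG) (G : MvPolynomial (Fin (n + 1)) A)
    (hG : map (algebraMap A k) G = F) (a : A) (ha : a ≠ 0) :
    ∃ N : ℕ, ∀ p : ℕ, N ≤ p → p.Prime → ∃ M : Ideal A, M.IsMaximal ∧ (p : A) ∈ M ∧ a ∉ M ∧
      (hwMatrix n m p (map (Ideal.Quotient.mk M) G)).det ≠ 0 :=
  main n m F O φ F' hF' l hl hred A hA G hG a ha

end Pool.Agent.Results.MP_adc574_ag.ArrangementDegenerations
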