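import Pool.Agent.Y162.HW.Cyc

/-!
# Cyclic covers of projective spaces whose branch divisor degenerates

Let `k` be a field of characteristic `0` and `X` the normal cyclic cover `w^e = ∏ F_j^(a_j)` of the
projective space of dimension `n` over `k`.  The structure sheaf of `X` is the sum of the sheaves
`O(-D_i)`, `0 ≤ i < e`, with `e D_i = ∑_j (i a_j mod e) deg F_j`; in characteristic `p`, not dividing
`e`, Frobenius maps the `i`-th summand of `H^n(X, O)` to the summand `p i`, by `x^(-w) ↦ P x^(-p w)`
with `P = ∏ F_j ^ ⌊p (i a_j mod e) / e⌋`.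

Suppose that a specialisation of the coefficients of the `F_j` in a field `κ` of characteristic `0`
turns them into `q_j ∏ ℓ_ι^(μ_jι)`, where the `ℓ_ι` are `m + n` linear forms in general position, the
form `q_j` of degree `δ_j` vanishes at no vertex of this arrangement, and for all `0 < i < e`
`∑_j (i a_j mod e) μ_jι = e` for all `ι` and `∑_j (i a_j mod e) δ_j = e`.
(This says that each `ℓ_ι` is in two of the specialised branch forms, with opposite exponents `a_j`
modulo `e`, or `e = 2` and it is twice in one of them.)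
Then for every model over a finitely generated subring `A ⊂ k`, every nonempty open set `D(c)` of
`Spec A` and every large prime number `p` there is a closed point of `D(c)` of characteristic `p`
at which Frobenius is bijective on `H^n(X_s, O)`.
-/

namespace Pool.Agent.Results.MP_adc574_ag.CyclicCovers

open MvPolynomial Pool.Agent.Y162.HW

theorem result {k κ : Type*} [Field k] [CharZero k] [Field κ] [CharZero κ] (n m e : ℕ)
    -- the branch forms and their exponents
    {J : Type*} [Fintype J] (a : J → ℕ) (F : J → MvPolynomial (Fin (n + 1)) k)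
    -- a specialisation of the coefficients
    (O : Subring k) (φ : O →+* κ)
    (F' : J → MvPolynomial (Fin (n + 1)) O) (hF' : ∀ j, map O.subtype (F' j) = F j)
    -- the specialised branch divisor
    (l : Fin (m + n) → Fin (n + 1) → κ) (hl : GenPos l)
    (μ : J → Fin (m + n) → ℕ) (δ : J → ℕ) (q : J → MvPolynomial (Fin (n + 1)) κ)
    (hq : ∀ j, (q j).IsHomogeneous (δ j)) (hqv : ∀ j, NonvanishingAtVertices l (q j))
    (hred : ∀ j, map φ (F' j) = q j * ∏ ι, lin (l ι) ^ μ j ι)
    (hμ : ∀ i, 0 < i → i < e → ∀ ι, ∑ j, (i * a j % e) * μ j ι = e)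
    (hδ : ∀ i, 0 < i → i < e → ∑ j, (i * a j % e) * δ j = e)
    -- a model over a finitely generated ring, a nonempty open set
    (A : Subalgebra ℤ k) (hA : A.FG) (G : J → MvPolynomial (Fin (n + 1)) A)
    (hG : ∀ j, map (algebraMap A k) (G j) = F j) (c : A) (hc : c ≠ 0) :
    ∃ N : ℕ, ∀ p : ℕ, N ≤ p → p.Prime → ∃ M : Ideal A, M.IsMaximal ∧ (p : A) ∈ M ∧ c ∉ M ∧
      ∀ i, 0 < i → i < e →
        (hwP n m p (∏ j, (map (Ideal.Quotient.mk M) (G j)) ^ frobExp e p i (a j))).det ≠ 0 :=
  cyclicMain n m e a F O φ F' hF' l hl μ δ q hq hqv hred hμ hδ A hA G hG c hc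

end Pool.Agent.Results.MP_adc574_ag.CyclicCovers
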