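import Pool.Agent.Y218.GM

/-!
# An infinitesimal criterion for dense ordinary reduction of abelian varieties and curves

Let `R` be a finitely generated domain of characteristic `0` with fraction field `K`, and let `X` be a
polarized abelian variety of dimension `g` over `K` with a model over `R` (for a curve: its Jacobian).
`H = H^1_dR(X)` is its first de Rham cohomology with the Gauss-Manin connection `∇`, `F = H^0(X, Ω^1)`
the Hodge filtration, and `D_j` are finitely many derivations of `R`. The Kodaira-Spencer map of `D_j`
is `F → H / F`, `x ↦ ∇_j x`; its second fundamental form is the quadratic form `⟨∇_j x, x⟩` on `F`.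
The data are given in a basis (`DeRham`), their known properties are `DeRham.IsAbelian`. They may contain
projectors `e_t` with sum `1` which are linear combinations of endomorphisms of `X` (or only `e = 1`).

**Theorem.** (1) Suppose that
* no nonzero subspace of `F` is stable under all `∇_j` (`NoHorizontal`), and
* for each `t` every common zero in `e_t F`, over `K̄`, of the second fundamental forms is in the kernel of
  all the Kodaira-Spencer maps (`KSCondition`); this is the case if the Kodaira-Spencer maps of all
  the `D_j` have rank at most one (`RankOne`).

Then for all large primes `p` the Hasse invariant is not contained in any minimal prime of `p R`: the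
reductions of `X` at the generic points of `Spec R / p R` are ordinary. For every nonempty open set
`D(c)` of `Spec R` and all large `p` there is a closed point of characteristic `p` in `D(c)` with
ordinary reduction (`DenseOrdinary`). So the answer to Q1 is positive for `X`.

(2) The same holds if `X` has real multiplication by a totally real field of degree `g = dim X`
(`HasRM`) and for each of its embeddings the Kodaira-Spencer map is not zero on the corresponding line in
`F` for one of the `D_j`.

Consequences. (a) By (2) the answer to Q1 is positive for every abelian variety with real
multiplication by a field of degree `dim X` that is not defined over a number field. (If the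
Kodaira-Spencer map is zero on one line for all derivations of `K`, then the monodromy is unitary
at one real place of the field, so it is finite, and `X` is defined over `ℚ̄`.) (b) Let `C → ℙ¹` be a
covering with a simple branch point `b` that is transcendental over the field generated by the other
branch points. In the direction `∂ / ∂ b` the Kodaira-Spencer map is the Schiffer variation at the
ramification point above `b`, of rank one. So the answer is positive for `C` if `H^0(C, Ω^1)` has no
nonzero subspace stable under `∇` in this direction. (c) It is positive if the second fundamental
forms have no common zero (`g` general derivations are enough); then `NoHorizontal` holds, too.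

Proof. Let `κ` be the residue field of a minimal prime over `p` and `C ⊂ H ⊗ κ` the conjugate filtration,
which is isotropic, horizontal and stable under endomorphisms. For `x` in `C ∩ F` and `y = e_t x` also
`∇_j y` is in `C`; so `⟨∇_j y, y⟩ = 0`, hence `∇_j y ∈ F`. So `C ∩ F` is stable under `∇`. The annihilator of
`F` generates the dual of `H` under the dual connection, in characteristic `0` and therefore for all
large `p`; so `C ∩ F = 0`.
-/

set_option autoImplicit false

namespace Pool.Agent.Results.MP_adc574_ag.InfinitesimalCriterion

open Pool.Agent.Y218.GM

universe u

/-- For all large `p` the reductions of `X` at the generic points of `Spec R / p R` are ordinary, and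
above all large `p` there are closed points with ordinary reduction in each nonempty open set. -/
def DenseOrdinary {R K : Type u} [CommRing R] [Field K] {g : ℕ} {J I : Type}
    (X : DeRham R K g J I) : Prop :=
  (∃ N : ℕ, ∀ p : ℕ, N ≤ p → p.Prime → ∀ Q ∈ (Ideal.span {(p : R)}).minimalPrimes,
      X.hw p ∉ Q) ∧
    ∀ c : R, c ≠ 0 → ∃ N : ℕ, ∀ p : ℕ, N ≤ p → p.Prime →
      ∃ M : Ideal R, M.IsMaximal ∧ (p : R) ∈ M ∧ c ∉ M ∧ X.hw p ∉ M

theorem result {R K : Type u} [CommRing R] [IsDomain R] [CharZero R] [Algebra.FiniteType ℤ R]
    [Field K] [Algebra R K] [IsFractionRing R K] {g : ℕ} {J : Type} [Fintype J] :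
    (∀ (I : Type) [Fintype I] (X : DeRham R K g J I), X.IsAbelian →
      (X.RankOne → X.KSCondition) ∧ (X.NoHorizontal → X.KSCondition → DenseOrdinary X)) ∧
    ∀ X : DeRham R K g J (Fin g), X.IsAbelian → X.HasRM → (∀ i, ∃ j, X.ks j i i ≠ 0) →
      DenseOrdinary X := by
  have key : ∀ (I : Type) [Fintype I] (X : DeRham R K g J I), X.IsAbelian →
      X.NoHorizontal → X.KSCondition → DenseOrdinary X := fun I _ X hX h1 h2 =>
    ⟨main_min X hX h1 h2, fun c hc => main_closed X hX h1 h2 c hc⟩
  refine ⟨fun I _ X hX => ⟨ksCondition_of_rankOne X hX, key I X hX⟩, fun X hX h hne => ?_⟩
  obtain ⟨h1, h2⟩ := rm_conditions X hX h hne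
  exact key _ X hX h1 h2

end Pool.Agent.Results.MP_adc574_ag.InfinitesimalCriterion
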