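import Pool.Agent.Y218.Adc

/-!
# Dense ordinary reduction of hyperelliptic curves with one transcendental branch point

Let `k` be a field of characteristic `0` and `X` a hyperelliptic curve over `k` of genus `g ≥ 1`. By a
projective transformation (after a finite extension of `k`) one branch point is moved to `∞`; the others
are `l_1, …, l_{2g}, t` in `k`, and the curve is `y² = (x - t) ∏ (x - l_j)`.

**Theorem.** Let `C_i : y² = (x - t_{s(i)}) ∏_j (x - l_{ij})` be finitely many such curves, of any genera
`g i ≥ 1`. For each `i` the `l_{ij}` are arbitrary distinct elements of `k`, for example algebraic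
numbers; the `t_σ` are algebraically independent over the field `ℚ(l_{ij})` generated by all the `l_{ij}`
(several curves may have the same `t_σ`; for one curve: `t` is transcendental over `ℚ(l_1, …, l_{2g})`).
Let `A ⊂ k` be a finitely generated ring over which the curves are defined and `c ≠ 0` in `A`. Then for
all large prime numbers `p` there is a closed point of `Spec A` of characteristic `p` with `c ≠ 0` at
which the Hasse-Witt matrices of all the curves are invertible.

For `c` divisible by `2` and the discriminants the reductions are smooth, and the Hasse-Witt matrix of
`C_i` is invertible if and only if the reduction of `C_i` is ordinary. Products of ordinary varieties are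
ordinary. So the closed points at which the product of the `C_i` has ordinary reduction are dense in
`Spec A`, above every large `p`.

Proof: over an algebraic closure of the residue field of a minimal prime of `ℤ[l_{ij}]` over `p` the
polynomial in `t_σ` given by the determinant of the Hasse-Witt matrix is not zero, by the theorem on
moving one branch point (`MP_2ca583_ag`, `2 g ≤ p + 1`). The theorem of Chevalley and the Jacobson
property of `A` give the closed points.
-/

set_option autoImplicit false

open Polynomial

namespace Pool.Agent.Results.MP_adc574_ag.TranscendentalBranchPoint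

/-- The Hasse-Witt (Cartier-Manin) matrix of `y² = f(x)`: the entry with indices `i, j` (from `0`)
is the coefficient of `x ^ (p (i + 1) - (j + 1))` in `f ^ ((p - 1) / 2)`, written as the coefficient of
`x ^ (p (i + 1))` in `x ^ (j + 1) f ^ ((p - 1) / 2)`. For `f` squarefree of degree `2 g + 1` over a field of
characteristic `p > 2` the curve is ordinary if and only if this matrix is invertible. -/
noncomputable def hasseWitt {R : Type*} [CommRing R] (p g : ℕ) (f : R[X]) :
    Matrix (Fin g) (Fin g) R :=
  Matrix.of fun i j => (X ^ ((j : ℕ) + 1) * f ^ ((p - 1) / 2)).coeff (p * ((i : ℕ) + 1))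

theorem result {k σ ι : Type*} [Finite σ] [Fintype ι] [Field k] [CharZero k]
    -- finitely many hyperelliptic curves of genus `g i`, with the branch points `∞`, `l i j`, `t (s i)`
    (g : ι → ℕ) (hg : ∀ i, 1 ≤ g i) (l : ∀ i, Fin (2 * g i) → k)
    (hl : ∀ i, Function.Injective (l i)) (t : σ → k) (s : ι → σ)
    -- the `t`'s are algebraically independent over the field generated by all the `l i j`
    (ht : AlgebraicIndependent (IntermediateField.adjoin ℚ (⋃ i, Set.range (l i))) t)
    -- a finitely generated ring over which the curves are defined, a nonempty open set
    (A : Subalgebra ℤ k) (hA : A.FG) (F : ι → A[X])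
    (hF : ∀ i, (F i).map (algebraMap A k) = (X - C (t (s i))) * ∏ j, (X - C (l i j)))
    (c : A) (hc : c ≠ 0) :
    ∃ N : ℕ, ∀ p : ℕ, N ≤ p → p.Prime → ∃ M : Ideal A, M.IsMaximal ∧ (p : A) ∈ M ∧ c ∉ M ∧
      ∀ i, (hasseWitt p (g i) ((F i).map (Ideal.Quotient.mk M))).det ≠ 0 :=
  Pool.Agent.Y218.Adc.main g hg l hl t ht s A hA F hF c hc

end Pool.Agent.Results.MP_adc574_ag.TranscendentalBranchPoint
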